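import Pool.Agent.H21.P4.Enum
import Pool.Agent.H36.LBL.CovP
import Pool.Agent.H89.P4.V8
import Pool.Agent.H25.P4.GfC
import Pool.Agent.H52.P4.Glue

/-!
# P4, the last assembly: the statements of the inputs

`VCellS`: in every cell there is a place with a visible chart. `GfS`: the known covectors.
`P4XT`: the conclusion.
-/

set_option autoImplicit false

namespace Pool.P4

open Finset Real MvPolynomial Matrix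
open Pool.Agent.H49.Ent Pool.Agent.H32.Dense Pool.STK Pool.STAT Pool.MIC.Frm Pool.MIC7 Pool.FRM
open Pool.GSD
open Pool.BFL (Pb)
open Pool.POT (VCh)
open Pool.LBL (Ld covP)
open Pool.STAT.Glu (kN)

/-- The output of a cell. -/
structure VOutD (D : NDat2) (n K K' J a₀ w₀ z M w i j r r' r'' a y X : ℕ) (lam gam : ℕ → ℝ)
    (κ C₁ C₀ C : ℝ) (q : D.Ω → ℝ) (E : D.Ω → Prop) (P : D.Γ × D.Γ → ℕ → PN)
    (S : D.Ω → ℕ → ℕ → ℝ) {c k : ℕ} (ys : Fin k → ℕ) (gs : Fin c → ℕ) (n₀ : Fin c) (B' : ℕ)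
    (c0 io s η : ℝ) : Prop where
  hyp : Hyp D n K K' J a₀ w₀ z M w i j r r' r'' y X lam gam κ C₁ C q E P S ys gs
  plc : Plc n gam y r r' r'' a M i j
  geo : Geo D n K' J w₀ z i j r r' r'' gam C₀ (exp (C₀ * z) / 2 ^ (y * z)) q E P S
  gd : ∀ ω, E ω → 0 < q ω ∧ GoodS D n K' w₀ z M C₀ ω ∧
    FrP D n K' z i j r C₀ (P (bb D i j r ω)) ω
  okn : ((qh (c := c) (k := k) D J w z i j r X C P S ys gs q).flag E).OkNS X (k + 4) (io * X)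
  tm : ((qh (c := c) (k := k) D J w z i j r X C P S ys gs q).flag E).TM X s η
  vch : VCh ((qh (c := c) (k := k) D J w z i j r X C P S ys gs q).flag E) X B' n₀ c0 (io * X)
    (io * X) (2 ^ (io * X)) (fun ω => (E ω, rcd D i j r a ω))
    (yF E (yD z X C (zh D i j r a E P) ys))
    (nF E (nuD z X C (zh D i j r a E P) gs)
      (qh (c := c) (k := k) D J w z i j r X C P S ys gs q).hgt)
    (MF i j r E (rcd D i j r a) (cMx D J a₀ z i j r a E P gs))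

/-- **(VCELL)** In every cell there is a place with a visible chart. -/
def VCellS : Prop :=
  ∀ (n K B : ℕ) (gam : ℕ → ℝ) (C₁ CL h : ℝ) (c k : ℕ) (ys : Fin k → ℕ) (gs : Fin c → ℕ)
    (n₀ : Fin c), 1 ≤ n → 1 ≤ B → (∀ l, 0 ≤ gam l) →
    0 < gam n → (∀ l, gr gam n l → gam l < 1 + thd gam n) → 1 ≤ C₁ → 0 < h → h ≤ 1 →
    (∀ a, sl gam n (ys a)) → Function.Injective ys → (∀ l, sl gam n l → ∃ a, ys a = l) →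
    (∀ u, gr gam n (gs u)) → StrictMono gs → (∀ l, gr gam n l → ∃ u, gs u = l) →
    gs n₀ = n → ∀ F : ℕ → ℝ → ℝ,
    ∃ (K' : ℕ) (C₀ C : ℝ), 1 ≤ C₀ ∧ C₀ ≤ C ∧ F K' C₀ ≤ C ∧ ∀ η : ℝ, 0 < η → ∃ s : ℝ, 0 < s ∧
    ∀ (B' U₀ y₀ : ℕ) (io δ : ℝ), 1 ≤ B' → 0 < io → 0 < δ → 4 * δ ≤ io →
    ∃ U y r r' r'' a i j : ℕ, 1 ≤ U ∧ U₀ ≤ U ∧ y₀ ≤ y ∧ ∀ M₀ : ℕ, ∃ M : ℕ, M₀ ≤ M ∧
    ∀ e : ℝ, 0 < e → ∃ (κ : ℝ) (z₀ : ℕ), 0 < κ ∧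
    ∀ (lam : ℕ → ℝ) (J a₀ w₀ z : ℕ) (D : NDat2) (q : D.Ω → ℝ) (ϖ : ℝ),
      (∀ l, 1 ≤ l → l ≤ n → lam l = 1) → z₀ ≤ z → ϖ ≤ 1 →
      D.Ok2 n K J a₀ w₀ z M lam gam κ C₁ q → D.DMA z M κ q → LLC D n z M CL q →
      D.TmU J w₀ z κ q → D.NF n z M B gam h C₁ ϖ q → NFc D n z M B gam (h + δ) C₁ q →
      ∃ (w : ℕ) (E : D.Ω → Prop) (P : D.Γ × D.Γ → ℕ → PN) (S : D.Ω → ℕ → ℕ → ℝ),
        Pb q (fun ω => ¬ E ω) ≤ e ∧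
        VOutD D n K K' J a₀ w₀ z M w i j r r' r'' a y (B * U * z) lam gam κ C₁ C₀ C q E P S
          ys gs n₀ B' (h / (4 * B)) io s η

/-- The known covectors of a place. -/
structure GfOut (D : NDat2) (U : GnL D) (n J a₀ w₀ z M w i j r a Q : ℕ) (R : ℕ → Prop)
    (C₂ ε : ℝ) (q : D.Ω → ℝ) (E Eg : D.Ω → Prop) (P : D.Γ × D.Γ → ℕ → PN)
    (S : D.Ω → ℕ → ℕ → ℝ) {c k : ℕ} (ys : Fin k → ℕ) (gs : Fin c → ℕ) (Fz : Finset (Fin c))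
    (fD : D.Ξ → Fin c → Fin c → ℝ) (fL : LT D → Fin c → Fin c → ℝ)
    (p0 p1 : LT D → Fin c → Fin k → ℝ) : Prop where
  ldD : ∀ x, ∀ g ∈ Fz, Ld g (fD x g) ∧ ∀ i, |fD x g i| ≤ exp (C₂ * z)
  ldL : ∀ x, ∀ g ∈ Fz, Ld g (fL x g) ∧ ∀ i, |fL x g i| ≤ exp (C₂ * z)
  pb : ∀ x, ∀ g ∈ Fz, ∀ a, |p0 x g a| ≤ exp (C₂ * z) ∧ |p1 x g a| ≤ exp (C₂ * z)
  pz : ∀ x, ∀ g ∈ Fz, ∀ a, gs g < ys a → p0 x g a = 0 ∧ p1 x g a = 0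
  cl : ∀ ω, Eg ω → ∀ g ∈ Fz, ∀ l,
    |(fD (D.pt ω) g ᵥ* MF i j r E (rcd D i j r a) (cMx D J a₀ z i j r a E P gs) ω) l -
      fL (Lt D J w i j r ω) g l| ≤ ε
  af : ∀ ω, Eg ω → ∀ g ∈ Fz, ∀ b, |∑ l, fL (Lt D J w i j r ω) g l * S ω (gs l) (ys b) -
    (p0 (Lt D J w i j r ω) g b + p1 (Lt D J w i j r ω) g b * rt D J w ω)| ≤ ε
  bx : ∀ ω, Eg ω → ∀ l : Fin c, ∀ g ∈ Fz, gs g < gs l → ∀ b,
    NBT D U z Q R i (j + 1) (a₀ + i * z) (gs l) ω b →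
    |∑ v, fL (Lt D J w i j r ω) g v *
        (nat (D.g i j) (P (bb D i j r ω)) b (gs v) - ze D i j r P ω (gs v)) -
      ∑ u, (p0 (Lt D J w i j r ω) g u + p1 (Lt D J w i j r ω) g u * rt D J w ω) *
        (nat (D.g i j) (P (bb D i j r ω)) b (ys u) - ze D i j r P ω (ys u))| ≤ ε

open Classical in
/-- **(GF)** -/
def GfS : Prop :=
  ∀ (n K K' c k : ℕ) (C₀ C₁ Cu : ℝ) (gam : ℕ → ℝ), 0 ≤ C₀ → 0 ≤ C₁ → 0 ≤ Cu →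
    ∃ F : ℝ, 0 ≤ F ∧ ∀ C : ℝ, F ≤ C → ∃ C₂ : ℝ, 1 ≤ C₂ ∧
    ∀ (D : NDat2) (U : GnL D) (R : ℕ → Prop) (J a₀ w₀ z M w i j r r' r'' a y X Q : ℕ)
      (lam : ℕ → ℝ) (κ : ℝ) (q : D.Ω → ℝ) (E : D.Ω → Prop) (P : D.Γ × D.Γ → ℕ → PN)
      (S : D.Ω → ℕ → ℕ → ℝ) (ys : Fin k → ℕ) (gs : Fin c → ℕ),
      Hyp D n K K' J a₀ w₀ z M w i j r r' r'' y X lam gam κ C₁ C q E P S ys gs →
      Plc n gam y r r' r'' a M i j →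
      Geo D n K' J w₀ z i j r r' r'' gam C₀ (exp (C₀ * z) / 2 ^ (y * z)) q E P S →
      (∀ ω, E ω → 0 < q ω ∧ GoodS D n K' w₀ z M C₀ ω ∧
        FrP D n K' z i j r C₀ (P (bb D i j r ω)) ω) →
      U.Ok n K J a₀ w₀ z M Q R C₁ q → ∀ Fz : Finset (Fin c),
      (∀ g, g ∈ Fz ↔ gs g < n ∧ ¬ R (gs g)) →
      ∃ (fD : D.Ξ → Fin c → Fin c → ℝ) (fL : LT D → Fin c → Fin c → ℝ)
        (p0 p1 : LT D → Fin c → Fin k → ℝ),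
        GfOut D U n J a₀ w₀ z M w i j r a Q R C₂
          (exp (C₂ * z) * (1 / 2 ^ (y * z) + 1 / 2 ^ (Q * z))) q E
          (fun ω => E ω ∧ GoodU D U n J w₀ z M R Cu ω) P S ys gs Fz fD fL p0 p1

/-- **P4**, in a cell with the additional laws. -/
def P4XT (n K A B : ℕ) (gam : ℕ → ℝ) (R : ℕ → Prop) (C₁ CL h δ : ℝ) : Prop :=
  ∃ (M Q K' : ℕ) (η' κ ϖ : ℝ) (z₀ : ℕ), 0 < η' ∧ 0 < κ ∧ 0 < ϖ ∧ ϖ ≤ 1 ∧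
    ∀ (lam : ℕ → ℝ) (J a₀ w₀ z : ℕ) (D : NDat2) (q : D.Ω → ℝ) (U : GnL D),
      (∀ l, 1 ≤ l → l ≤ n → lam l = 1) → z₀ ≤ z →
      D.Ok2 n K J a₀ w₀ z M lam gam κ C₁ q → D.DMA z M κ q → LLC D n z M CL q →
      D.TmU J w₀ z κ q → D.NF n z M B gam h C₁ ϖ q → NFc D n z M B gam (h + δ) C₁ q →
      U.Ok n K J a₀ w₀ z M Q R C₁ q →
      ∃ l, 1 ≤ l ∧ l ≤ n ∧ (l = n ∨ (R l ∧ gr gam n l)) ∧ ∃ i ≤ M, ∃ j ≤ M,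
        NewLabT D U J a₀ w₀ z Q R i j l A K' η' q

end Pool.P4
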