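import Pool.Agent.H21.P4.EndS

/-!
# P4, the last assembly: events, numbers, digits
-/

set_option autoImplicit false

namespace Pool.P4

open Finset Real MvPolynomial Matrix
open Pool.Agent.H49.Ent Pool.Agent.H32.Dense Pool.STK Pool.STAT Pool.MIC.Frm Pool.MIC7 Pool.FRM
open Pool.GSD
open Pool.BFL (Pb)
open Pool.POT (VCh pw pw_pos pw_add pw_le pw_zero one_le_pw pw_inv ex_pw pb_mono)
open Pool.LBL (Ld covP)
open Pool.STAT.Glu (kN)

/-! ### Numbers -/

theorem exp_le_pw {B U z : ℕ} {a x : ℝ} (hB : 1 ≤ B) (hx : 0 < x)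
    (hU : a ≤ x * Real.log 2 * U) : exp (a * z) ≤ pw (B * U * z) x := by
  have hl : 0 < Real.log 2 := Real.log_pos (by norm_num)
  have hBr : (1 : ℝ) ≤ B := by exact_mod_cast hB
  unfold pw
  rw [← Real.log_le_log_iff (exp_pos _) (by positivity), Real.log_exp, Real.log_rpow (by norm_num)]
  push_cast
  have h1 : a * z ≤ x * Real.log 2 * U * z := mul_le_mul_of_nonneg_right hU (Nat.cast_nonneg z)
  have h2 : x * Real.log 2 * U * z * 1 ≤ x * Real.log 2 * U * z * B :=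
    mul_le_mul_of_nonneg_left hBr (by positivity)
  nlinarith

theorem pw_one (X : ℕ) : pw X 1 = 2 ^ X := by
  unfold pw
  rw [one_mul, Real.rpow_natCast]

theorem ex_nat (a : ℝ) {x : ℝ} (hx : 0 < x) : ∃ U₀ : ℕ, ∀ U : ℕ, U₀ ≤ U → a ≤ x * Real.log 2 * U := by
  obtain ⟨U₀, h⟩ := Pool.POT.ex_ge (a := x * Real.log 2) (b := a)
    (mul_pos hx (Real.log_pos (by norm_num)))
  exact ⟨U₀, h⟩

/-! ### Events -/

theorem pb_and {W : Type} [Fintype W] {q : W → ℝ} (hq : ∀ w, 0 ≤ q w) (A B : W → Prop) :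
    Pb q A ≤ Pb q (fun w => A w ∧ B w) + Pb q (fun w => ¬ B w) := by
  refine gf_Pb_or hq _ _ _ fun w hw => ?_
  by_cases hB : B w
  · exact Or.inl ⟨hw, hB⟩
  · exact Or.inr hB

theorem pb_not_and {W : Type} [Fintype W] {q : W → ℝ} (hq : ∀ w, 0 ≤ q w) (A B : W → Prop) :
    Pb q (fun w => ¬ (A w ∧ B w)) ≤ Pb q (fun w => ¬ A w) + Pb q (fun w => ¬ B w) := by
  refine gf_Pb_or hq _ _ _ fun w hw => ?_
  by_cases hA : A w
  · exact Or.inr fun hB => hw ⟨hA, hB⟩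
  · exact Or.inl hA

/-! ### The line knows the coarse line -/

theorem det_line {c k : ℕ} (D : NDat2) (J w z i j r X : ℕ) (C : ℝ) (P : D.Γ × D.Γ → ℕ → PN)
    (S : D.Ω → ℕ → ℕ → ℝ) (ys : Fin k → ℕ) (gs : Fin c → ℕ) (q : D.Ω → ℝ) (E : D.Ω → Prop) :
    Det q (Lt D J w i j r) ((qh (c := c) (k := k) D J w z i j r X C P S ys gs q).flag E).line := by
  intro ω ω' _ _ h
  unfold Lt NDat2.wn at h
  simp only [Prod.mk.injEq] at h
  obtain ⟨h1, h2, h3⟩ := h
  have ht : t0 D J w ω = t0 D J w ω' := by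
    unfold t0
    rw [h3]
  have hz : ∀ t l, zt D i j r P t ω l = zt D i j r P t ω' l := by
    intro t l
    unfold zt
    rw [h1, h2]
  have h0 : z0 D J w i j r P ω = z0 D J w i j r P ω' := by
    funext l
    unfold z0
    rw [ht, hz]
  have hb : be D J w i j r P ω = be D J w i j r P ω' := by
    funext l
    unfold be
    rw [ht, hz, h0]
  have hcb : cb D J w i j r ω = cb D J w i j r ω' := by
    unfold cb
    rw [h1, h3]
  have hv : vv D J w z i j r X C P ys gs ω = vv D J w z i j r X C P ys gs ω' := by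
    unfold vv yv bev
    rw [hcb, h0, hb]
  have hn : nuv D J w z i j r X C P gs ω = nuv D J w z i j r X C P gs ω' := by
    unfold nuv
    rw [h0]
  change (nuv D J w z i j r X C P gs ω, (vv D J w z i j r X C P ys gs ω, cb D J w i j r ω)) =
    (nuv D J w z i j r X C P gs ω', (vv D J w z i j r X C P ys gs ω', cb D J w i j r ω'))
  rw [hn, hv, hcb]

/-- Smaller `c0`. -/
theorem vch_c0 {c k : ℕ} {H : Pool.QT64.QH c k} {X B : ℕ} {n₀ : Fin c} {c0 c0' d δ Γ : ℝ}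
    {σ υ : Type} {s : H.Ω → σ} {y : H.Ω → υ} {n : H.Ω → Fin c → ℤ}
    {M : H.Ω → Matrix (Fin c) (Fin c) ℝ} (h : VCh H X B n₀ c0 d δ Γ s y n M) (hc : c0' ≤ c0) :
    VCh H X B n₀ c0' d δ Γ s y n M :=
  { h with
    nf := h.nf.trans (by
      have hl : 0 < Real.log 2 := Real.log_pos (by norm_num)
      exact mul_le_mul_of_nonneg_right (mul_le_mul_of_nonneg_right (by linarith)
        (Nat.cast_nonneg X)) hl.le) }

/-! ### The digits of the slopes and of the time -/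

/-- The digits of an affine relation. -/
theorem dig_rel {c : ℕ} {f : Fin c → ℝ} {S Sd : Fin c → ℝ} {p0 p1 rt tq e x ε F : ℝ}
    (hx : 0 < x) (he0 : 0 ≤ e) (he1 : e ≤ 1) (hS : ∀ i, |Sd i - e * S i| ≤ 1 / x)
    (ht : |tq - x * rt| ≤ 1) (hf : ∀ i, |f i| ≤ F) (hp : |p1| ≤ F)
    (h : |∑ i, f i * S i - (p0 + p1 * rt)| ≤ ε) :
    |∑ i, f i * Sd i - p0 * e - p1 * e / x * tq| ≤ (c + 1) * F * (1 / x) + ε := by
  have hF : 0 ≤ F := (abs_nonneg _).trans hp
  have e1 : ∑ i, f i * Sd i - p0 * e - p1 * e / x * tq = ∑ i, f i * (Sd i - e * S i) +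
      (e * (∑ i, f i * S i - (p0 + p1 * rt)) + -(p1 * e * ((tq - x * rt) / x))) := by
    have e2 : ∑ i, f i * (Sd i - e * S i) = ∑ i, f i * Sd i - e * ∑ i, f i * S i := by
      rw [Finset.mul_sum, ← Finset.sum_sub_distrib]
      refine Finset.sum_congr rfl fun i _ => ?_
      ring
    rw [e2]
    field_simp
    ring
  rw [e1]
  have a1 : |∑ i, f i * (Sd i - e * S i)| ≤ c * (F * (1 / x)) := by
    refine (Finset.abs_sum_le_sum_abs _ _).trans ?_
    calc ∑ i, |f i * (Sd i - e * S i)| ≤ ∑ _i : Fin c, F * (1 / x) := by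
          refine Finset.sum_le_sum fun i _ => ?_
          rw [abs_mul]
          exact mul_le_mul (hf i) (hS i) (abs_nonneg _) hF
      _ = c * (F * (1 / x)) := by simp
  have a2 : |e * (∑ i, f i * S i - (p0 + p1 * rt))| ≤ ε := by
    rw [abs_mul, abs_of_nonneg he0]
    calc e * |∑ i, f i * S i - (p0 + p1 * rt)| ≤ 1 * |∑ i, f i * S i - (p0 + p1 * rt)| :=
          mul_le_mul_of_nonneg_right he1 (abs_nonneg _)
      _ ≤ ε := by rw [one_mul]; exact h
  have a3 : |-(p1 * e * ((tq - x * rt) / x))| ≤ F * (1 / x) := by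
    rw [abs_neg, abs_mul, abs_mul, abs_of_nonneg he0, abs_div, abs_of_pos hx]
    have b1 : |p1| * e ≤ F * 1 := mul_le_mul hp he1 he0 hF
    have b2 : |tq - x * rt| / x ≤ 1 / x := div_le_div_of_nonneg_right ht hx.le
    calc |p1| * e * (|tq - x * rt| / x) ≤ (F * 1) * (1 / x) :=
          mul_le_mul b1 b2 (by positivity) (by linarith)
      _ = F * (1 / x) := by ring
  have a4 := abs_add_le (∑ i, f i * (Sd i - e * S i))
    (e * (∑ i, f i * S i - (p0 + p1 * rt)) + -(p1 * e * ((tq - x * rt) / x)))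
  have a5 := abs_add_le (e * (∑ i, f i * S i - (p0 + p1 * rt))) (-(p1 * e * ((tq - x * rt) / x)))
  have a6 : ((c : ℝ) + 1) * F * (1 / x) = c * (F * (1 / x)) + F * (1 / x) := by ring
  rw [a6]
  linarith

/-- The digits of the slopes and of the time. -/
theorem dig_cell {D : NDat2} {n K K' J a₀ w₀ z M w i j r r' r'' y X : ℕ} {lam gam : ℕ → ℝ}
    {κ C₁ C : ℝ} {q : D.Ω → ℝ} {E : D.Ω → Prop} {P : D.Γ × D.Γ → ℕ → PN} {S : D.Ω → ℕ → ℕ → ℝ}
    {c k : ℕ} {ys : Fin k → ℕ} {gs : Fin c → ℕ}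
    (H : Hyp D n K K' J a₀ w₀ z M w i j r r' r'' y X lam gam κ C₁ C q E P S ys gs) {ω : D.Ω}
    (hω : E ω) : (∀ u a, |(Sv D z X C S ys gs ω u a : ℝ) / 2 ^ X -
      exp (-(C * z)) * S ω (gs u) (ys a)| ≤ 1 / 2 ^ X) ∧
      |(tq J w X (D.T ω) : ℝ) - 2 ^ X * rt D J w ω| ≤ 1 :=
  ⟨fun u a => dig_E (H.geo.bS ω (H.gd ω hω).1 hω (gs u) (ys a)),
    (rt_near (H.ok.X_zero ω) H.wX).2⟩

end Pool.P4
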