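import Pool.Agent.H14.P4.Thin
import Mathlib.Data.Finset.Sort

/-!
# P4, the last assembly: enumerations and constants
-/

set_option autoImplicit false

namespace Pool.P4

open Finset Real

open Classical in
/-- The slow coordinates and the group, enumerated. -/
theorem enum_ex (n : ℕ) (gam : ℕ → ℝ) (hn : 1 ≤ n) :
    ∃ (c k : ℕ) (ys : Fin k → ℕ) (gs : Fin (c + 1) → ℕ), c + 1 ≤ n ∧ k ≤ n ∧
      (∀ a, sl gam n (ys a)) ∧ Function.Injective ys ∧ (∀ l, sl gam n l → ∃ a, ys a = l) ∧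
      (∀ u, gr gam n (gs u)) ∧ StrictMono gs ∧ (∀ l, gr gam n l → ∃ u, gs u = l) ∧
      gs (Fin.last c) = n := by
  obtain ⟨G, hG⟩ : ∃ G : Finset ℕ, G = (Finset.Icc 1 n).filter (gr gam n) := ⟨_, rfl⟩
  obtain ⟨Y, hY⟩ : ∃ Y : Finset ℕ, Y = (Finset.Icc 1 n).filter (sl gam n) := ⟨_, rfl⟩
  have hnG : n ∈ G := by
    rw [hG, Finset.mem_filter, Finset.mem_Icc]
    exact ⟨⟨hn, le_rfl⟩, hn, le_rfl, min_le_left _ _⟩
  have memG : ∀ l, l ∈ G ↔ gr gam n l := by
    intro l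
    rw [hG, Finset.mem_filter, Finset.mem_Icc]
    exact ⟨fun h => h.2, fun h => ⟨⟨h.1, h.2.1⟩, h⟩⟩
  have memY : ∀ l, l ∈ Y ↔ sl gam n l := by
    intro l
    rw [hY, Finset.mem_filter, Finset.mem_Icc]
    exact ⟨fun h => h.2, fun h => ⟨⟨h.1, h.2.1.le⟩, h⟩⟩
  obtain ⟨c, hc⟩ : ∃ c, G.card = c + 1 := ⟨G.card - 1, by
    have := Finset.card_pos.2 ⟨n, hnG⟩
    omega⟩
  have hcn : c + 1 ≤ n := by
    rw [← hc, hG]
    refine (Finset.card_filter_le _ _).trans ?_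
    rw [Nat.card_Icc]
    omega
  have hkn : Y.card ≤ n := by
    rw [hY]
    refine (Finset.card_filter_le _ _).trans ?_
    rw [Nat.card_Icc]
    omega
  refine ⟨c, Y.card, Y.orderEmbOfFin rfl, G.orderEmbOfFin hc, hcn, hkn, ?_, ?_, ?_, ?_, ?_, ?_, ?_⟩
  · intro a
    exact (memY _).1 (Finset.orderEmbOfFin_mem _ _ _)
  · exact (Y.orderEmbOfFin rfl).injective
  · intro l hl
    have h := Finset.range_orderEmbOfFin Y rfl
    have h2 : l ∈ Set.range (Y.orderEmbOfFin rfl) := by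
      rw [h]
      exact (memY l).2 hl
    exact h2
  · intro u
    exact (memG _).1 (Finset.orderEmbOfFin_mem _ _ _)
  · exact (G.orderEmbOfFin hc).strictMono
  · intro l hl
    have h := Finset.range_orderEmbOfFin G hc
    have h2 : l ∈ Set.range (G.orderEmbOfFin hc) := by
      rw [h]
      exact (memG l).2 hl
    exact h2
  · have h := Finset.range_orderEmbOfFin G hc
    have h2 : n ∈ Set.range (G.orderEmbOfFin hc) := by
      rw [h]
      exact hnG
    obtain ⟨u, hu⟩ := h2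
    refine le_antisymm ?_ ?_
    · exact ((memG _).1 (Finset.orderEmbOfFin_mem G hc (Fin.last c))).2.1
    · rw [← hu]
      exact (G.orderEmbOfFin hc).monotone (Fin.le_last u)

/-- A lower bound of finitely many positive numbers. -/
theorem min_pos (n : ℕ) (f : ℕ → ℕ → ℝ) (hf : ∀ c k, 0 < f c k) :
    ∃ δ : ℝ, 0 < δ ∧ ∀ c ≤ n, ∀ k ≤ n, δ ≤ f c k := by
  obtain ⟨S, hS⟩ : ∃ S : Finset (ℕ × ℕ), S = Finset.range (n + 1) ×ˢ Finset.range (n + 1) :=
    ⟨_, rfl⟩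
  have hne : S.Nonempty := ⟨(0, 0), by rw [hS]; simp⟩
  refine ⟨S.inf' hne fun x => f x.1 x.2, ?_, fun c hc k hk => ?_⟩
  · rw [Finset.lt_inf'_iff]
    exact fun x _ => hf _ _
  · refine Finset.inf'_le (fun x : ℕ × ℕ => f x.1 x.2) (b := (c, k)) ?_
    rw [hS, Finset.mem_product, Finset.mem_range, Finset.mem_range]
    exact ⟨by omega, by omega⟩

end Pool.P4
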